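import Pool.Agent.Helper74.ZarSpectral

set_option autoImplicit false

/-!
# The upper bound `(s - t + 1) ^ (1 / t)` for the spectral Zarankiewicz problem is not sharp

For all `t ≥ 4` and `s ≥ t + 2` there is `ε > 0` such that for large `n` every eigenvalue of every
`K_{s,t}`-free graph on `n` vertices is at most `((s - t + 1) ^ (1 / t) - ε) n ^ (1 - 1 / t)`.
-/

namespace Pool.Agent.Results.MP_010c11_co.UpperNotSharp

open Pool.Agent.Zar74

theorem result (s t : ℕ) (ht : 4 ≤ t) (hs : t + 2 ≤ s) :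
    ∃ ε : ℝ, 0 < ε ∧ ∃ N : ℕ, ∀ n : ℕ, N ≤ n → ∀ (G : SimpleGraph (Fin n)) [DecidableRel G.Adj],
      (completeBipartiteGraph (Fin s) (Fin t)).Free G →
      ∀ lam : ℝ, Module.End.HasEigenvalue (Matrix.toLin' (G.adjMatrix ℝ)) lam →
        lam ≤ (((s : ℝ) - t + 1) ^ (1 / (t : ℝ)) - ε) * (n : ℝ) ^ (1 - 1 / (t : ℝ)) := by
  obtain ⟨η, hη0, hη1, hfew⟩ := few_high s t ht hs
  have ht0 : (0 : ℝ) < t := by exact_mod_cast (by omega : 0 < t)
  have ht4 : (4 : ℝ) ≤ t := by exact_mod_cast ht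
  set Bm : ℝ := (s : ℝ) - t + 1 with hBm
  have hBm3 : 3 ≤ Bm := by
    have : ((t + 2 : ℕ) : ℝ) ≤ s := by exact_mod_cast hs
    push_cast at this
    rw [hBm]; linarith
  set c0 : ℝ := ((1 - η) * Bm) ^ (1 / (t : ℝ)) with hc0
  set c1 : ℝ := Bm ^ (1 / (t : ℝ)) with hc1
  have h1η : 1 ≤ (1 - η) * Bm := by nlinarith
  have hc01 : 1 ≤ c0 := Real.one_le_rpow h1η (by positivity)
  have hlt : c0 < c1 := by
    apply Real.rpow_lt_rpow (by linarith) _ (by positivity)
    nlinarith
  have hc0t : c0 ^ t = (1 - η) * Bm := by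
    rw [hc0, ← Real.rpow_natCast, ← Real.rpow_mul (by linarith)]
    rw [one_div_mul_cancel ht0.ne', Real.rpow_one]
  set gap : ℝ := c1 - c0 with hgap
  have hgap0 : 0 < gap := by linarith
  obtain ⟨ρ, hρ, R0, hspec⟩ := spectral_bound s t (by omega) (by omega) (ε := gap / 4) (by positivity)
  obtain ⟨N0, hN0⟩ := hfew ρ hρ
  have hexp : (0 : ℝ) < 1 - 1 / (t : ℝ) := by
    have : 1 / (t : ℝ) ≤ 1 / 4 := one_div_le_one_div_of_le (by norm_num) ht4
    linarith
  have htend : Filter.Tendsto (fun n : ℕ => (n : ℝ) ^ (1 - 1 / (t : ℝ))) Filter.atTop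
      Filter.atTop := (tendsto_rpow_atTop hexp).comp tendsto_natCast_atTop_atTop
  obtain ⟨N1, hN1⟩ := Filter.eventually_atTop.1
    (htend.eventually_ge_atTop (max (max R0 (t / η)) (max (2 * t / gap) 1)))
  refine ⟨gap / 4, by positivity, max N0 (max N1 1), ?_⟩
  intro n hn G _ hfree lam heig
  have hnN0 : N0 ≤ n := (le_max_left _ _).trans hn
  have hnN1 : N1 ≤ n := ((le_max_left _ _).trans (le_max_right _ _)).trans hn
  have hn1 : 1 ≤ n := ((le_max_right _ _).trans (le_max_right _ _)).trans hn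
  set R : ℝ := (n : ℝ) ^ (1 - 1 / (t : ℝ)) with hR
  have hRbig := hN1 n hnN1
  have hRR0 : R0 ≤ R := ((le_max_left _ _).trans (le_max_left _ _)).trans hRbig
  have hRη : t / η ≤ R := ((le_max_right _ _).trans (le_max_left _ _)).trans hRbig
  have hRgap : 2 * t / gap ≤ R := ((le_max_left _ _).trans (le_max_right _ _)).trans hRbig
  have hR1 : 1 ≤ R := ((le_max_right _ _).trans (le_max_right _ _)).trans hRbig
  have hn0 : (0 : ℝ) < n := by exact_mod_cast hn1
  have hRt : R ^ t = (n : ℝ) ^ (t - 1) := by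
    rw [hR, ← Real.rpow_natCast, ← Real.rpow_mul hn0.le, ← Real.rpow_natCast]
    congr 1
    rw [Nat.cast_sub (by omega)]
    field_simp
    simp
  by_cases hsmall : lam < R / 2
  · have h1 : 1 ≤ c1 - gap / 4 := by
      have : c1 = c0 + gap := by rw [hgap]; ring
      linarith
    have h2 : R / 2 ≤ (c1 - gap / 4) * R := by nlinarith
    linarith
  push Not at hsmall
  set D : ℕ := ⌊c0 * R⌋₊ with hD
  have hcR : 0 ≤ c0 * R := by positivity
  have hDle : (D : ℝ) ≤ c0 * R := Nat.floor_le hcR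
  have hDge : c0 * R - 1 ≤ D := by
    have := Nat.lt_floor_add_one (c0 * R)
    rw [← hD] at this
    linarith
  have hcRt : (c0 * R) ^ t = (1 - η) * Bm * (n : ℝ) ^ (t - 1) := by
    rw [mul_pow, hc0t, hRt]
  have hnt : 0 < (n : ℝ) ^ (t - 1) := by positivity
  have hupp : (D : ℝ) ^ t ≤ Bm * (n : ℝ) ^ (t - 1) := by
    calc (D : ℝ) ^ t ≤ (c0 * R) ^ t := pow_le_pow_left₀ (Nat.cast_nonneg _) hDle _
      _ = (1 - η) * Bm * (n : ℝ) ^ (t - 1) := hcRt
      _ ≤ Bm * (n : ℝ) ^ (t - 1) := by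
          apply mul_le_mul_of_nonneg_right _ hnt.le
          nlinarith
  have hlow : (1 - 2 * η) * Bm * (n : ℝ) ^ (t - 1) ≤ (D : ℝ) ^ t := by
    have h1 : (1 - η / t) * (c0 * R) ≤ D := by
      refine le_trans ?_ hDge
      have h2 : 1 ≤ η / t * (c0 * R) := by
        rw [div_le_iff₀ hη0] at hRη
        have h3 : (t : ℝ) ≤ η * (c0 * R) := by nlinarith
        rw [div_mul_eq_mul_div, le_div_iff₀ ht0]
        linarith
      linarith
    have h2 : 0 ≤ 1 - η / t := by
      have : η / t ≤ 1 := by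
        rw [div_le_one ht0]; linarith
      linarith
    have h3 : ((1 - η / t) * (c0 * R)) ^ t ≤ (D : ℝ) ^ t := pow_le_pow_left₀ (by positivity) h1 _
    rw [mul_pow, hcRt] at h3
    have h4 : 1 - η ≤ (1 - η / t) ^ t := by
      have h5 := one_add_mul_le_pow (a := -(η / t)) (by
        have : η / t ≤ 1 := by
          rw [div_le_one ht0]; linarith
        linarith) t
      have h6 : (t : ℝ) * -(η / t) = -η := by field_simp
      rw [h6] at h5
      have h7 : (1 : ℝ) + -(η / t) = 1 - η / t := by ring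
      rw [h7] at h5
      linarith
    have h5 : (1 - 2 * η) * Bm * (n : ℝ) ^ (t - 1) ≤
        (1 - η / t) ^ t * ((1 - η) * Bm * (n : ℝ) ^ (t - 1)) := by
      have h6 : 0 ≤ (1 - η) * Bm * (n : ℝ) ^ (t - 1) := by
        apply mul_nonneg _ hnt.le
        linarith
      have h7 : (1 - η) * ((1 - η) * Bm * (n : ℝ) ^ (t - 1)) ≤
          (1 - η / t) ^ t * ((1 - η) * Bm * (n : ℝ) ^ (t - 1)) := mul_le_mul_of_nonneg_right h4 h6
      refine le_trans ?_ h7
      have h8 : (1 - η) * ((1 - η) * Bm * (n : ℝ) ^ (t - 1)) =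
          ((1 - η) * (1 - η)) * (Bm * (n : ℝ) ^ (t - 1)) := by ring
      rw [h8, mul_assoc]
      apply mul_le_mul_of_nonneg_right _ (by positivity)
      nlinarith
    exact h5.trans h3
  have hcount := hN0 (Fin n) G D (by rw [Fintype.card_fin]; exact hnN0) hfree
    (by rw [Fintype.card_fin]; exact hlow) (by rw [Fintype.card_fin]; exact hupp)
  -- eigenvector
  obtain ⟨z, hz⟩ := heig.exists_hasEigenvector
  have hz1 : (G.adjMatrix ℝ).mulVec z = lam • z := by
    have := hz.apply_eq_smul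
    rwa [Matrix.toLin'_apply] at this
  have hz2 : z ≠ 0 := hz.2
  have hx : ∀ v, lam * |z v| ≤ ∑ u ∈ G.neighborFinset v, |z u| := by
    intro v
    have h1 := congrFun hz1 v
    rw [SimpleGraph.adjMatrix_mulVec_apply] at h1
    simp only [Pi.smul_apply, smul_eq_mul] at h1
    calc lam * |z v| ≤ |lam| * |z v| := mul_le_mul_of_nonneg_right (le_abs_self _) (abs_nonneg _)
      _ = |lam * z v| := (abs_mul _ _).symm
      _ = |∑ u ∈ G.neighborFinset v, z u| := by rw [h1]
      _ ≤ ∑ u ∈ G.neighborFinset v, |z u| := Finset.abs_sum_le_sum_abs _ _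
  have hsumpos : 0 < ∑ v, |z v| := by
    obtain ⟨v, hv⟩ := Function.ne_iff.1 hz2
    apply Finset.sum_pos' (fun v _ => abs_nonneg _) ⟨v, Finset.mem_univ _, abs_pos.2 hv⟩
  have hfinal := hspec (Fin n) G R ((D : ℝ) + t) lam (fun v => |z v|) hfree (by positivity) hRR0
    (by rw [Fintype.card_fin]; exact hRt)
    (by
      refine le_trans (le_of_eq ?_) hcount
      congr 2
      ext v
      simp only [Finset.mem_filter, Finset.mem_univ, true_and]
      constructor
      · intro h; exact_mod_cast h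
      · intro h; exact_mod_cast h)
    (fun v => abs_nonneg _) hsumpos hsmall hx
  have hgapR : (t : ℝ) ≤ gap / 2 * R := by
    rw [div_le_iff₀ hgap0] at hRgap
    linarith
  have hc1eq : c1 = c0 + gap := by rw [hgap]; ring
  rw [hc1eq]
  nlinarith

end Pool.Agent.Results.MP_010c11_co.UpperNotSharp
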